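import Pool.Agent.N751.VD.Stm
import Pool.Agent.N751.VD.Pt
import Pool.Agent.N650.CV.FldC
import Pool.Agent.Y729.AE.Count

/-!
# Project VD, part UP (helper391): few closed points of bounded degree have small discriminants
-/

set_option autoImplicit false

namespace Pool.Agent.N391.VD.Up

open NumberField Module Height
open Pool.Agent.N751.VD
open Pool.Agent.W301.Lin (FS)
open Pool.Agent.N650.CV.FldC (elts fin_of)

/-! ### Isomorphisms -/

section iso

variable {K A M M' : Type} [Field K] [CommRing A] [Algebra K A] [Field M] [NumberField M]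
  [Algebra K M] [Field M'] [NumberField M'] [Algebra K M']

omit [NumberField M] [NumberField M'] in
theorem finrank_one (e : M ≃+* M') : letI : Algebra M M' := (e : M →+* M').toAlgebra
    finrank M M' = 1 := by
  letI : Algebra M M' := (e : M →+* M').toAlgebra
  have h : Function.Bijective (Algebra.linearMap M M') := e.bijective
  have h1 := (LinearEquiv.ofBijective (Algebra.linearMap M M') h).finrank_eq
  rw [finrank_self] at h1
  exact h1.symm

theorem logHeight_iso {ι : Type} [Fintype ι] [Nonempty ι] (e : M ≃+* M') (v : ι → M) :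
    logHeight (fun i => e (v i)) = logHeight v := by
  letI : Algebra M M' := (e : M →+* M').toAlgebra
  have h := Pool.Agent.Helper259.HtExt.logHeight_ext (K := M) (L := M') v
  have h1 : finrank M M' = 1 := finrank_one e
  rw [h1, Nat.cast_one, one_mul] at h
  exact h

theorem logHeight₁_iso (e : M ≃+* M') (v : M) : logHeight₁ (e v) = logHeight₁ v := by
  rw [logHeight₁_eq_logHeight, logHeight₁_eq_logHeight, ← logHeight_iso e ![v, 1]]
  congr 1
  funext i
  fin_cases i
  · rfl
  · simp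

theorem ht_iso {N : ℕ} (y : Fin N → A) (x : A →ₐ[K] M) (x' : A →ₐ[K] M') (e : M ≃+* M')
    (h : ∀ a, e (x a) = x' a) : ht y x' = ht y x := by
  unfold ht
  rw [← logHeight_iso e]
  congr 1
  funext i
  refine Fin.cases ?_ (fun j => ?_) i
  · simp
  · simp [h]

omit [NumberField M] [NumberField M'] in
/-- two points with the same kernel -/
theorem exists_iso (x : A →ₐ[K] M) (x' : A →ₐ[K] M') (hx : Function.Surjective x)
    (hx' : Function.Surjective x') (h : RingHom.ker x = RingHom.ker x') :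
    ∃ e : M ≃ₐ[K] M', ∀ a, e (x a) = x' a := by
  let e1 := Ideal.quotientKerAlgEquivOfSurjective hx
  let e2 := Ideal.quotientKerAlgEquivOfSurjective hx'
  let e3 : (A ⧸ RingHom.ker x) ≃ₐ[K] (A ⧸ RingHom.ker x') := Ideal.quotientEquivAlgOfEq K h
  refine ⟨(e1.symm.trans e3).trans e2, fun a => ?_⟩
  have h1 : e1 (Ideal.Quotient.mk _ a) = x a := rfl
  have h2 : e1.symm (x a) = Ideal.Quotient.mk _ a := by rw [← h1, AlgEquiv.symm_apply_apply]
  show e2 (e3 (e1.symm (x a))) = x' a
  rw [h2]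
  rfl

end iso

/-- the embedding into the algebraic closure -/
theorem emb {K A M : Type} [Field K] [NumberField K] [CommRing A] [Algebra K A] [Field M]
    [NumberField M] [Algebra K M] (φ : A →ₐ[K] M) :
    ∃ (φ' : A →ₐ[K] AlgebraicClosure K) (L : IntermediateField K (AlgebraicClosure K))
      (_ : NumberField L) (w : A → L), RingHom.ker φ' = RingHom.ker φ ∧
      finrank K L = finrank K M ∧ discr L = discr M ∧
      ∀ a, ((w a : L) : AlgebraicClosure K) = φ' a ∧ logHeight₁ (w a) = logHeight₁ (φ a) := by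
  haveI : FiniteDimensional K M := Module.Finite.of_restrictScalars_finite ℚ K M
  let j : M →ₐ[K] AlgebraicClosure K := IsAlgClosed.lift
  let e : M ≃ₐ[K] j.fieldRange := j.equivFieldRange
  haveI : FiniteDimensional K j.fieldRange := e.toLinearEquiv.finiteDimensional
  haveI : NumberField j.fieldRange := NumberField.of_module_finite K j.fieldRange
  have hfr : finrank K j.fieldRange = finrank K M := e.toLinearEquiv.finrank_eq.symm
  refine ⟨j.comp φ, j.fieldRange, inferInstance, fun a => e (φ a), ?_, hfr, ?_, fun a => ⟨rfl, ?_⟩⟩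
  · ext a
    rw [RingHom.mem_ker, RingHom.mem_ker, AlgHom.comp_apply, map_eq_zero]
  · exact discr_eq_discr_of_ringEquiv _ e.toRingEquiv.symm
  · exact logHeight₁_iso e.toRingEquiv (φ a)

/-! ### Counting -/

/-- tuples of elements of bounded height -/
theorem tuples {L : Type} [Field L] [NumberField L] {N : ℕ} {V D' : ℝ}
    (hD : ∀ E : Finset L, (∀ y ∈ E, logHeight₁ y ≤ V) → (E.card : ℝ) ≤ D')
    (E : Finset (Fin N → L)) (hE : ∀ z ∈ E, ∀ i, logHeight₁ (z i) ≤ V) :
    (E.card : ℝ) ≤ D' ^ N := by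
  classical
  have h1 : E ⊆ Fintype.piFinset fun i => E.image fun z => z i := by
    intro z hz
    rw [Fintype.mem_piFinset]
    exact fun i => Finset.mem_image_of_mem _ hz
  have h2 := Finset.card_le_card h1
  rw [Fintype.card_piFinset] at h2
  have h3 : (E.card : ℝ) ≤ ∏ i, ((E.image fun z : Fin N → L => z i).card : ℝ) := by
    exact_mod_cast h2
  refine h3.trans ?_
  calc ∏ i, ((E.image fun z : Fin N → L => z i).card : ℝ) ≤ ∏ _i : Fin N, D' := by
        refine Finset.prod_le_prod (fun i _ => Nat.cast_nonneg _) fun i _ => hD _ ?_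
        intro y hy
        obtain ⟨z, hz, rfl⟩ := Finset.mem_image.1 hy
        exact hE z hz i
    _ = D' ^ N := by rw [Finset.prod_const, Finset.card_univ, Fintype.card_fin]

theorem pairs {K : Type} [Field K] [NumberField K] {r N : ℕ} {X V D' : ℝ}
    (hfin : (FS K r X).Finite) (hD0 : 0 ≤ D')
    (hD : ∀ (L : Type) [Field L] [NumberField L], finrank ℚ L = finrank ℚ K * r →
      ∀ E : Finset L, (∀ y ∈ E, logHeight₁ y ≤ V) → (E.card : ℝ) ≤ D')
    (E : Finset (IntermediateField K (AlgebraicClosure K) × (Fin N → AlgebraicClosure K)))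
    (hE : ∀ p ∈ E, p.1 ∈ FS K r X ∧ ∃ (_ : NumberField p.1) (y : Fin N → p.1),
      ∀ i, (y i : AlgebraicClosure K) = p.2 i ∧ logHeight₁ (y i) ≤ V) :
    (E.card : ℝ) ≤ (FS K r X).ncard * D' ^ N := by
  classical
  set F : Finset (IntermediateField K (AlgebraicClosure K)) := E.image Prod.fst with hFd
  have hcard : (E.card : ℝ) = ∑ L ∈ F, ((E.filter fun p => p.1 = L).card : ℝ) := by
    rw [Finset.card_eq_sum_card_image Prod.fst E]
    push_cast
    rfl
  have hone : ∀ L ∈ F, ((E.filter fun p => p.1 = L).card : ℝ) ≤ D' ^ N := by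
    intro L hL
    obtain ⟨p0, hp0, rfl⟩ := Finset.mem_image.1 hL
    obtain ⟨⟨hfr, -⟩, hnf, -⟩ := hE p0 hp0
    set f : (Fin N → AlgebraicClosure K) → (Fin N → p0.1) := fun y i =>
      if h : y i ∈ p0.1 then ⟨y i, h⟩ else 0 with hf
    set G := E.filter fun p => p.1 = p0.1 with hG
    have hGm : ∀ p ∈ G, p ∈ E ∧ p.1 = p0.1 := fun p hp => Finset.mem_filter.1 hp
    have hgx : ∀ p ∈ G, ∃ x : Fin N → p0.1, (∀ i, (x i : AlgebraicClosure K) = p.2 i) ∧
        f p.2 = x ∧ ∀ i, logHeight₁ (x i) ≤ V := by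
      rintro ⟨p1, p2⟩ hp
      obtain ⟨hpE, hp1⟩ := hGm _ hp
      simp only at hp1
      subst hp1
      obtain ⟨-, _, x, hx⟩ := hE _ hpE
      refine ⟨x, fun i => (hx i).1, ?_, fun i => (hx i).2⟩
      funext i
      have h1 : (x i : AlgebraicClosure K) = p2 i := (hx i).1
      simp only [hf]
      apply Subtype.ext
      rw [dif_pos (by rw [← h1]; exact (x i).2)]
      exact h1.symm
    have hinj : Set.InjOn (fun p : IntermediateField K (AlgebraicClosure K) ×
        (Fin N → AlgebraicClosure K) => f p.2) (G : Set _) := by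
      intro p hp q hq hpq
      obtain ⟨x, hx, hgx', -⟩ := hgx p (Finset.mem_coe.1 hp)
      obtain ⟨y, hy, hgy', -⟩ := hgx q (Finset.mem_coe.1 hq)
      simp only at hpq
      rw [hgx', hgy'] at hpq
      refine Prod.ext ((hGm p (Finset.mem_coe.1 hp)).2.trans
        (hGm q (Finset.mem_coe.1 hq)).2.symm) ?_
      funext i
      rw [← hx i, ← hy i, hpq]
    rw [← Finset.card_image_of_injOn hinj]
    have hdeg : finrank ℚ p0.1 = finrank ℚ K * r := by
      rw [← finrank_mul_finrank ℚ K p0.1, hfr]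
    refine tuples (hD p0.1 hdeg) _ ?_
    intro y hy i
    obtain ⟨p, hp, rfl⟩ := Finset.mem_image.1 hy
    obtain ⟨x, -, hgx', hc⟩ := hgx p hp
    show logHeight₁ (f p.2 i) ≤ V
    rw [hgx']
    exact hc i
  have hFs : (F.card : ℝ) ≤ (FS K r X).ncard := by
    rw [Set.ncard_eq_toFinset_card _ hfin]
    have : F ⊆ hfin.toFinset := by
      intro L hL
      obtain ⟨p0, hp0, rfl⟩ := Finset.mem_image.1 hL
      exact hfin.mem_toFinset.2 (hE p0 hp0).1
    exact_mod_cast Finset.card_le_card this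
  calc (E.card : ℝ) = ∑ L ∈ F, ((E.filter fun p => p.1 = L).card : ℝ) := hcard
    _ ≤ ∑ _L ∈ F, D' ^ N := Finset.sum_le_sum hone
    _ = F.card * D' ^ N := by rw [Finset.sum_const, nsmul_eq_mul]
    _ ≤ _ := mul_le_mul_of_nonneg_right hFs (by positivity)

/-- the exponents -/
theorem exponents (e : ℕ → ℝ) (he1 : ∀ c : ℝ, 1 / (8 * (Real.log 2) ^ 2) < c →
      ∀ᶠ n : ℕ in Filter.atTop, e n ≤ c * (Real.log n) ^ 2) (he2 : ∀ n, 0 ≤ e n) :
    ∃ B : ℝ, 0 < B ∧ ∀ n r : ℕ, 1 ≤ n → n ≤ r → 2 ≤ r → e n ≤ B * (Real.log r) ^ 2 := by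
  have hl2 : 0.69 < Real.log 2 := by
    have := Real.log_two_gt_d9
    linarith
  have h1 : 1 / (8 * (Real.log 2) ^ 2) < 1 := by
    rw [div_lt_one (by positivity)]
    nlinarith
  obtain ⟨n₁, hn₁⟩ := Filter.eventually_atTop.1 (he1 1 h1)
  set E0 := ∑ k ∈ Finset.range n₁, e k with hE0
  have hE00 : 0 ≤ E0 := Finset.sum_nonneg fun k _ => he2 k
  have hlp : 0 < (Real.log 2) ^ 2 := by positivity
  refine ⟨1 + E0 / (Real.log 2) ^ 2, by positivity, ?_⟩
  intro n r hn hnr hr
  have hr2 : (2 : ℝ) ≤ r := by exact_mod_cast hr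
  have hlr : Real.log 2 ≤ Real.log r := Real.log_le_log (by norm_num) hr2
  have hlr2 : (Real.log 2) ^ 2 ≤ (Real.log r) ^ 2 := by gcongr
  have hq : 0 ≤ E0 / (Real.log 2) ^ 2 := by positivity
  by_cases h : n₁ ≤ n
  · have h2 := hn₁ n h
    rw [one_mul] at h2
    have hn0 : (1 : ℝ) ≤ n := by exact_mod_cast hn
    have h3 : Real.log n ≤ Real.log r := Real.log_le_log (by linarith) (by exact_mod_cast hnr)
    have h4 : 0 ≤ Real.log n := Real.log_nonneg hn0
    have h5 : (Real.log n) ^ 2 ≤ (Real.log r) ^ 2 := by gcongr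
    nlinarith [sq_nonneg (Real.log r)]
  · have h2 : e n ≤ E0 := Finset.single_le_sum (fun k _ => he2 k) (Finset.mem_range.2 (by omega))
    have h3 : E0 = E0 / (Real.log 2) ^ 2 * (Real.log 2) ^ 2 := by field_simp
    have h4 : E0 / (Real.log 2) ^ 2 * (Real.log 2) ^ 2 ≤ E0 / (Real.log 2) ^ 2 * (Real.log r) ^ 2 :=
      mul_le_mul_of_nonneg_left hlr2 hq
    nlinarith [sq_nonneg (Real.log r)]

/-- **VD/UP** -/
theorem t : StmUp := by
  classical
  intro K _ _
  obtain ⟨e, he1, he2, -, -, hF⟩ := Pool.Agent.Y729.AE.linnikK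
  obtain ⟨B', hB'0, hB'⟩ := exponents e he1 he2
  set n0 : ℕ := finrank ℚ K with hn0
  have hn0p : 0 < n0 := finrank_pos
  have hn0R : (0 : ℝ) < n0 := by exact_mod_cast hn0p
  refine ⟨n0 * (B' + 3), by positivity, ?_⟩
  intro A _ _ N y hy r hr
  have hC1 : ∀ n : ℕ, ∃ C : ℝ, 0 < C ∧ (1 ≤ n → ∀ X : ℝ, 1 ≤ X →
      (FS K n X).Finite ∧ ((FS K n X).ncard : ℝ) ≤ C * X ^ e n) := by
    intro n
    by_cases hn : 1 ≤ n
    · obtain ⟨C, hC, h⟩ := hF n hn n0
      exact ⟨C, hC, fun _ X hX => h K rfl X hX⟩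
    · exact ⟨1, one_pos, fun h => absurd h hn⟩
  choose C1 hC1p hC1 using hC1
  have hD : ∀ n : ℕ, ∃ D : ℝ, 0 < D ∧ ∀ (L : Type) [Field L] [NumberField L],
      finrank ℚ L = n0 * n → ∀ X : ℝ, 0 ≤ X → ∀ E : Finset L, (∀ y ∈ E, logHeight₁ y ≤ X) →
        (E.card : ℝ) ≤ D * Real.exp ((2 + 1) * X) := fun n => elts (n0 * n) one_pos
  choose D hDp hD using hD
  refine ⟨1 + ∑ n ∈ Finset.Icc 1 r, C1 n * D n ^ N, ?_, ?_⟩
  · have : 0 ≤ ∑ n ∈ Finset.Icc 1 r, C1 n * D n ^ N :=
      Finset.sum_nonneg fun n _ => (mul_pos (hC1p n) (pow_pos (hDp n) _)).le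
    linarith
  intro G U hG hU
  set X : ℕ → ℝ := fun n => Real.exp (G * (U * (n0 * n))) with hX
  set V : ℕ → ℝ := fun n => U * (n0 * n) with hV
  have hX1 : ∀ n, 1 ≤ X n := fun n => Real.one_le_exp (by positivity)
  have hV0 : ∀ n, 0 ≤ V n := fun n => by positivity
  -- the data of a point
  have data0 : ∀ p : Ideal A, (Pt K y r U p ∧ Small K y G p) →
      ∃ t : ℕ × (A →ₐ[K] AlgebraicClosure K) × IntermediateField K (AlgebraicClosure K),
      t.1 ∈ Finset.Icc 1 r ∧ RingHom.ker t.2.1 = p ∧ t.2.2 ∈ FS K t.1 (X t.1) ∧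
        ∃ (_ : NumberField t.2.2) (w : Fin N → t.2.2), ∀ i,
          (w i : AlgebraicClosure K) = t.2.1 (y i) ∧ logHeight₁ (w i) ≤ V t.1 := by
    rintro p ⟨⟨M, _, _, _, x, hx, hk, hfr, hh⟩, ⟨M', _, _, _, x', hx', hk', hd⟩⟩
    haveI : FiniteDimensional K M := Module.Finite.of_restrictScalars_finite ℚ K M
    obtain ⟨e1, he1⟩ := exists_iso x x' hx hx' (hk.trans hk'.symm)
    have hdisc : discr M = discr M' := discr_eq_discr_of_ringEquiv _ e1.toRingEquiv
    have hht : ht y x' = ht y x := ht_iso y x x' e1.toRingEquiv he1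
    rw [hht, ← hdisc] at hd
    have hdeg : finrank ℚ M = n0 * finrank K M := by
      rw [hn0]
      exact (finrank_mul_finrank ℚ K M).symm
    have hh' : ht y x ≤ V (finrank K M) := by
      rw [hdeg] at hh
      push_cast at hh
      exact hh
    obtain ⟨φ', L, hnf, w, g1, g2, g3, g4⟩ := emb x
    refine ⟨(finrank K M, φ', L), Finset.mem_Icc.2 ⟨finrank_pos, hfr⟩, g1.trans hk,
      ⟨g2, hnf, ?_⟩, hnf, fun i => w (y i), fun i => ⟨(g4 (y i)).1, ?_⟩⟩
    · have h2 : Real.log |(discr M : ℝ)| ≤ G * V (finrank K M) :=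
        hd.le.trans (mul_le_mul_of_nonneg_left hh' hG)
      have h3 : 0 < |(discr M : ℝ)| := by
        rw [abs_pos]
        exact_mod_cast discr_ne_zero M
      have h4 := (Real.log_le_iff_le_exp h3).1 h2
      rw [g3]
      push_cast
      exact h4
    · rw [(g4 (y i)).2]
      exact (ht_coord_le (fun i => x (y i)) i).trans hh'
  refine fin_of ?_
  intro T hT
  have data : ∀ p : {p // p ∈ T}, ∃ t : ℕ × (A →ₐ[K] AlgebraicClosure K) ×
      IntermediateField K (AlgebraicClosure K),
      t.1 ∈ Finset.Icc 1 r ∧ RingHom.ker t.2.1 = p.1 ∧ t.2.2 ∈ FS K t.1 (X t.1) ∧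
        ∃ (_ : NumberField t.2.2) (w : Fin N → t.2.2), ∀ i,
          (w i : AlgebraicClosure K) = t.2.1 (y i) ∧ logHeight₁ (w i) ≤ V t.1 :=
    fun p => data0 p.1 (hT p.1 p.2)
  choose t ht using data
  set g : {p // p ∈ T} → IntermediateField K (AlgebraicClosure K) × (Fin N → AlgebraicClosure K) :=
    fun p => ((t p).2.2, fun i => (t p).2.1 (y i)) with hg
  have hginj : Function.Injective g := by
    intro p q hpq
    have h1 : ∀ i, (t p).2.1 (y i) = (t q).2.1 (y i) := fun i => congrFun (Prod.ext_iff.1 hpq).2 i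
    have h2 : (t p).2.1 = (t q).2.1 := by
      refine AlgHom.ext_of_adjoin_eq_top hy ?_
      rintro _ ⟨i, rfl⟩
      exact h1 i
    apply Subtype.ext
    rw [← (ht p).2.1, ← (ht q).2.1, h2]
  have hTc : (T.card : ℝ) = ∑ n ∈ Finset.Icc 1 r,
      (((Finset.univ : Finset {p // p ∈ T}).filter fun p => (t p).1 = n).card : ℝ) := by
    have h1 : T.card = (Finset.univ : Finset {p // p ∈ T}).card := by
      rw [Finset.card_univ, Fintype.card_coe]
    rw [h1, Finset.card_eq_sum_card_fiberwise (f := fun p => (t p).1) (t := Finset.Icc 1 r)]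
    · push_cast
      rfl
    · intro p _
      exact (ht p).1
  have hone : ∀ n ∈ Finset.Icc 1 r,
      (((Finset.univ : Finset {p // p ∈ T}).filter fun p => (t p).1 = n).card : ℝ) ≤
      (C1 n * D n ^ N) * Real.exp (n0 * (B' + 3) * r * (G * (Real.log r) ^ 2 + N) * U) := by
    intro n hn
    obtain ⟨hn1, hnr⟩ := Finset.mem_Icc.1 hn
    obtain ⟨hfin, hcf⟩ := hC1 n hn1 (X n) (hX1 n)
    rw [← Finset.card_image_of_injective _ hginj]
    have h1 := pairs (N := N) hfin (D' := D n * Real.exp ((2 + 1) * V n))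
      (by have := hDp n; positivity)
      (fun L _ _ hL E hE => hD n L hL (V n) (hV0 n) E hE)
      (((Finset.univ : Finset {p // p ∈ T}).filter fun p => (t p).1 = n).image g) (by
        intro q hq
        obtain ⟨p, hp, rfl⟩ := Finset.mem_image.1 hq
        have hp' := (Finset.mem_filter.1 hp).2
        obtain ⟨-, -, h3, h4⟩ := ht p
        rw [hp'] at h3 h4
        exact ⟨h3, h4⟩)
    refine h1.trans ?_
    have hDn := hDp n
    have hCn := hC1p n
    have hnR : (n : ℝ) ≤ r := by exact_mod_cast hnr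
    have h3 : X n ^ e n = Real.exp (G * (U * (n0 * n)) * e n) := by
      simp only [hX]
      rw [← Real.exp_mul]
    have h4 : (Real.exp ((2 + 1) * V n)) ^ N = Real.exp (N * ((2 + 1) * V n)) := by
      rw [← Real.exp_nat_mul]
    calc ((FS K n (X n)).ncard : ℝ) * (D n * Real.exp ((2 + 1) * V n)) ^ N
        ≤ (C1 n * X n ^ e n) * (D n * Real.exp ((2 + 1) * V n)) ^ N := by gcongr
      _ = (C1 n * D n ^ N) * Real.exp (G * (U * (n0 * n)) * e n + N * ((2 + 1) * V n)) := by
          rw [h3, mul_pow, h4, Real.exp_add]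
          ring
      _ ≤ _ := by
          refine mul_le_mul_of_nonneg_left (Real.exp_le_exp.2 ?_) (by positivity)
          have h5 := hB' n r hn1 hnr hr
          have hL0 : 0 ≤ (Real.log r) ^ 2 := sq_nonneg _
          have hN0 : (0 : ℝ) ≤ N := Nat.cast_nonneg N
          have h6 : G * (U * (n0 * n)) * e n ≤ G * (U * (n0 * r)) * (B' * (Real.log r) ^ 2) := by
            have := he2 n
            gcongr
          have h7 : (N : ℝ) * ((2 + 1) * V n) ≤ N * (3 * (U * (n0 * r))) := by
            simp only [hV]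
            have : (2 + 1 : ℝ) = 3 := by norm_num
            rw [this]
            gcongr
          refine (add_le_add h6 h7).trans ?_
          have h8 : 0 ≤ U * (n0 * r) := by positivity
          have h9 : 0 ≤ G * (Real.log r) ^ 2 := by positivity
          have e1 : n0 * (B' + 3) * r * (G * (Real.log r) ^ 2 + N) * U =
              (U * (n0 * r)) * ((B' + 3) * (G * (Real.log r) ^ 2 + N)) := by ring
          have e2 : G * (U * (n0 * r)) * (B' * (Real.log r) ^ 2) + N * (3 * (U * (n0 * r))) =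
              (U * (n0 * r)) * (B' * (G * (Real.log r) ^ 2) + 3 * N) := by ring
          rw [e1, e2]
          refine mul_le_mul_of_nonneg_left ?_ h8
          nlinarith
  rw [hTc]
  refine (Finset.sum_le_sum hone).trans ?_
  rw [← Finset.sum_mul]
  have h10 : 0 < Real.exp (n0 * (B' + 3) * r * (G * (Real.log r) ^ 2 + N) * U) := Real.exp_pos _
  nlinarith

end Pool.Agent.N391.VD.Up
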